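import Pool.Agent.V5helper52.PT.Stm
import Pool.Agent.V5helper52.FW.TFerm

/-!
# JOB MERGE: two proportional columns
-/

set_option autoImplicit false

open CategoryTheory AlgebraicGeometry MvPolynomial Pool.Agent.Y116.UV Pool.Agent.V5helper52.SF
  Pool.Agent.V5helper52.TR Pool.Agent.V5helper52.FW Pool.Agent.V5helper52.PT

namespace Pool.Agent.V5helper86.PT

variable {k : Type} [Field k]

/-! ### quotients of polynomial rings -/

section gen

variable {σ ι : Type} (G : ι → MvPolynomial σ k)

/-- the coordinates -/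
noncomputable def cx (j : σ) : MvPolynomial σ k ⧸ Ideal.span (Set.range G) :=
  Ideal.Quotient.mk _ (X j)

lemma cx_rel (i : ι) : aeval (cx G) (G i) = 0 := by
  have h1 : (aeval (cx G) : MvPolynomial σ k →ₐ[k] _) =
      Ideal.Quotient.mkₐ k (Ideal.span (Set.range G)) := by
    apply MvPolynomial.algHom_ext
    intro i
    rw [aeval_X]
    rfl
  rw [h1]
  exact Ideal.Quotient.eq_zero_iff_mem.mpr (Ideal.subset_span ⟨i, rfl⟩)

variable {F : Type} [CommRing F] [Algebra k F]

lemma span_zero (g : MvPolynomial σ k →ₐ[k] F) (hg : ∀ i, g (G i) = 0) :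
    ∀ a ∈ Ideal.span (Set.range G), g a = 0 := by
  have h1 : Ideal.span (Set.range G) ≤ RingHom.ker g := by
    rw [Ideal.span_le]
    rintro _ ⟨i, rfl⟩
    exact hg i
  exact fun a ha => h1 ha

lemma cx_lift (y : σ → F) (hy : ∀ i, aeval y (G i) = 0) :
    ∃ h : (MvPolynomial σ k ⧸ Ideal.span (Set.range G)) →ₐ[k] F, ∀ j, h (cx G j) = y j :=
  ⟨Ideal.Quotient.liftₐ _ (aeval y) (span_zero G _ hy), fun j => aeval_X y j⟩

variable {G} in
lemma cx_ext {h h' : (MvPolynomial σ k ⧸ Ideal.span (Set.range G)) →ₐ[k] F}
    (e : ∀ j, h (cx G j) = h' (cx G j)) : h = h' :=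
  Ideal.Quotient.algHom_ext _ (MvPolynomial.algHom_ext e)

lemma isQ_mk {D : Type} [CommRing D] [Algebra k D] (w : MvPolynomial σ k) (x : σ → D)
    (h0 : ∀ i, aeval x (G i) = 0) (hu : IsUnit (aeval x w))
    (hl : ∀ (F : Type) [CommRing F] [Algebra k F] (y : σ → F), (∀ i, aeval y (G i) = 0) →
      IsUnit (aeval y w) → ∃ h : D →ₐ[k] F, ∀ j, h (x j) = y j)
    (he : ∀ (F : Type) [CommRing F] [Algebra k F] (h h' : D →ₐ[k] F),
      (∀ j, h (x j) = h' (x j)) → h = h') :
    IsQ (Ideal.span (Set.range G)) w (aeval x : MvPolynomial σ k →ₐ[k] D) where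
  zero := span_zero G _ h0
  unit := hu
  lift F _ _ g hg hw := by
    have e1 : (aeval fun j => g (X j)) = g := MvPolynomial.algHom_ext fun j => aeval_X _ _
    obtain ⟨h, hh⟩ := hl F (fun j => g (X j)) (fun i => by
      rw [e1]
      exact hg _ (Ideal.subset_span ⟨i, rfl⟩)) (by rw [e1]; exact hw)
    refine ⟨h, MvPolynomial.algHom_ext fun j => ?_⟩
    rw [AlgHom.comp_apply, aeval_X, hh]
  ext F _ _ h h' e := he F h h' fun j => by
    have := DFunLike.congr_fun e (X j)
    rwa [AlgHom.comp_apply, AlgHom.comp_apply, aeval_X] at this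

end gen

/-! ### the linear variable -/

variable {κ τ : Type} [Fintype τ] (E : ℕ) (M : κ → Option (Option τ) → k) (lam : k)

/-- the equations with a linear variable -/
noncomputable def gl (i : κ) : MvPolynomial (Option τ) k :=
  C (M i (some none)) * X none + ∑ t, C (M i (some (some t))) * X (some t) ^ E

/-- the algebra with a linear variable -/
abbrev BB : Type := MvPolynomial (Option τ) k ⧸ Ideal.span (Set.range (gl E M))

/-- the linear variable -/
noncomputable abbrev YY : BB E M := cx (gl E M) none

section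

variable {F : Type} [CommRing F] [Algebra k F]

lemma aeval_gl (y : Option τ → F) (i : κ) : aeval y (gl E M i) =
    algebraMap k F (M i (some none)) * y none +
      ∑ t, algebraMap k F (M i (some (some t))) * y (some t) ^ E := by
  rw [gl, map_add, map_mul, aeval_C, aeval_X, map_sum]
  congr 1
  refine Finset.sum_congr rfl fun t _ => ?_
  rw [map_mul, map_pow, aeval_C, aeval_X]

lemma aeval_ferm {σ : Type} [Fintype σ] (c : σ → k) (y : σ → F) : aeval y (Ferm E σ c) =
    ∑ t, algebraMap k F (c t) * y t ^ E := by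
  rw [Ferm, map_sum]
  refine Finset.sum_congr rfl fun t _ => ?_
  rw [map_mul, map_pow, aeval_C, aeval_X]

lemma map_gl (y : BB E M →ₐ[k] F) (i : κ) :
    algebraMap k F (M i (some none)) * y (YY E M) +
      ∑ t, algebraMap k F (M i (some (some t))) * y (cx (gl E M) (some t)) ^ E = 0 := by
  have h1 := congrArg y (cx_rel (gl E M) i)
  rw [map_zero, map_aeval'] at h1
  rw [← h1, aeval_gl]

/-- the sum of two powers -/
noncomputable abbrev hh : MvPolynomial Bool k := Ferm E Bool (fun b => cond b 1 lam)

lemma aeval_hh (y : Bool → F) :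
    aeval y (hh (k := k) E lam) = y true ^ E + algebraMap k F lam * y false ^ E := by
  rw [hh, aeval_ferm, Fintype.sum_bool]
  simp

end

/-- homogeneity -/
lemma ferm_hom {σ : Type} [Fintype σ] (c : σ → k) :
    IsWeightedHomogeneous (fun _ : σ => (1 : ℤ)) (Ferm E σ c) (E : ℤ) := by
  rw [Ferm]
  refine IsWeightedHomogeneous.sum _ _ _ fun t _ => ?_
  have h2 := (isWeightedHomogeneous_C (fun _ : σ => (1 : ℤ)) (c t)).mul
    ((isWeightedHomogeneous_X k (fun _ : σ => (1 : ℤ)) t).pow E)
  rwa [zero_add, nsmul_eq_mul, mul_one] at h2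

/-! ### the universal properties -/

/-- the coordinates on the fibre product -/
noncomputable def x1 : Option (Option τ) →
    Fib (one (hh (k := k) E lam)) (BB E M) (fun _ => YY E M) :=
  fun j => j.elim (fv _ _ false) fun j => j.elim (fv _ _ true) fun t =>
    fc _ _ (cx (gl E M) (some t))

lemma fib_Y : fv (one (hh (k := k) E lam)) (fun _ => YY E M) true ^ E +
    algebraMap k _ lam * fv (one (hh (k := k) E lam)) (fun _ => YY E M) false ^ E =
      fc (one (hh (k := k) E lam)) (fun _ => YY E M) (YY E M) := by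
  rw [← aeval_hh]
  exact fib_rel ()

lemma isQ1 (hM : ∀ i, M i none = lam * M i (some none)) :
    IsQ (sysI E M) 1 (aeval (x1 E M lam) : MvPolynomial (Option (Option τ)) k →ₐ[k] _) := by
  refine isQ_mk _ _ _ (fun i => ?_) (by rw [map_one]; exact isUnit_one) ?_ ?_
  · have h1 := map_gl E M (fc (one (hh (k := k) E lam)) (fun _ => YY E M)) i
    rw [← fib_Y] at h1
    rw [aeval_ferm, Fintype.sum_option, Fintype.sum_option, hM, map_mul, ← h1]
    simp only [x1, Option.elim]
    ring
  · intro F _ _ y hy _
    obtain ⟨φ, hφ⟩ := cx_lift (gl E M) (fun j : Option τ => j.elim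
      (y (some none) ^ E + algebraMap k F lam * y none ^ E) fun t => y (some (some t))) (fun i => by
        have h1 := hy i
        rw [aeval_ferm, Fintype.sum_option, Fintype.sum_option, hM, map_mul] at h1
        rw [aeval_gl, ← h1]
        simp only [Option.elim]
        ring)
    refine ⟨fibLift φ (fun b => cond b (y (some none)) (y none)) (fun _ => ?_), ?_⟩
    · refine (aeval_hh E lam _).trans ?_
      rw [hφ]
      rfl
    · rintro (_ | _ | t)
      · exact fibLift_fv _ _ _ _
      · exact fibLift_fv _ _ _ _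
      · exact (fibLift_fc _ _ _ _).trans (hφ _)
  · intro F _ _ h h' e
    have e0 : h (fv _ _ false) = h' (fv _ _ false) := e none
    have e1 : h (fv _ _ true) = h' (fv _ _ true) := e (some none)
    have e2 : h.comp (fc _ _) = h'.comp (fc _ _) := by
      refine cx_ext fun j => ?_
      rw [AlgHom.comp_apply, AlgHom.comp_apply]
      rcases j with _ | t
      · change h (fc _ _ (YY E M)) = h' (fc _ _ (YY E M))
        rw [← fib_Y, map_add, map_add, map_mul, map_mul, map_pow, map_pow, map_pow, map_pow, e0, e1,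
          AlgHom.commutes, AlgHom.commutes]
      · exact e (some (some t))
    refine fib_ext (fun c => DFunLike.congr_fun e2 c) ?_
    rintro (_ | _)
    · exact e0
    · exact e1

/-- the coordinates on the quotient -/
noncomputable def x2 (t : τ) : BB E M ⧸ Ideal.span {YY E M} := qm k _ (cx (gl E M) (some t))

lemma isQ2 : IsQ (R := k) (A := MvPolynomial τ k) (D := BB E M ⧸ Ideal.span {YY E M})
    (sysI E fun i t => M i (some (some t))) 1 (aeval (x2 E M)) := by
  refine isQ_mk (D := BB E M ⧸ Ideal.span {YY E M}) _ _ _ (fun i => ?_)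
    (by rw [map_one]; exact isUnit_one) ?_ ?_
  · have h1 := map_gl E M (qm k (YY E M)) i
    rw [qm_self, mul_zero, zero_add] at h1
    exact (aeval_ferm E _ _).trans h1
  · intro F _ _ y hy _
    obtain ⟨φ, hφ⟩ := cx_lift (gl E M) (fun j : Option τ => j.elim 0 y) (fun i => by
        have h1 := hy i
        rw [aeval_ferm] at h1
        rw [aeval_gl]
        simp only [Option.elim, mul_zero, zero_add]
        exact h1)
    exact ⟨qLift φ (hφ none), fun t => (qLift_qm _ _ _).trans (hφ (some t))⟩
  · intro F _ _ h h' e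
    have e2 : h.comp (qm k _) = h'.comp (qm k _) := by
      refine cx_ext fun j => ?_
      rw [AlgHom.comp_apply, AlgHom.comp_apply]
      rcases j with _ | t
      · change h (qm k (YY E M) (YY E M)) = h' (qm k (YY E M) (YY E M))
        rw [qm_self, map_zero, map_zero]
      · exact e t
    exact q_ext fun c => DFunLike.congr_fun e2 c

/-- the coordinates on the Kummer algebra -/
noncomputable def x3 : Option τ → Kum E (YY E M) :=
  fun j => j.elim (kr _ _) fun t => kc k _ _ (cx (gl E M) (some t))

lemma isQ3 (hE : 0 < E) : IsQ (sysI E fun i j => M i (some j)) (1 * X none)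
    (aeval (x3 E M) : MvPolynomial (Option τ) k →ₐ[k] _) := by
  refine isQ_mk _ _ _ (fun i => ?_) ?_ ?_ ?_
  · have h1 := map_gl E M (kc k E (YY E M)) i
    rw [← kr_pow] at h1
    rw [aeval_ferm, Fintype.sum_option, ← h1]
    rfl
  · rw [one_mul, aeval_X]
    exact kr_unit k hE
  · intro F _ _ y hy hu
    rw [one_mul, aeval_X] at hu
    obtain ⟨φ, hφ⟩ := cx_lift (gl E M) (fun j : Option τ => j.elim (y none ^ E)
      fun t => y (some t)) (fun i => by
        have h1 := hy i
        rw [aeval_ferm, Fintype.sum_option] at h1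
        rw [aeval_gl, ← h1]
        simp only [Option.elim])
    have h0 : φ (YY E M) = y none ^ E := hφ none
    refine ⟨kLift φ (y none) h0.symm (by rw [h0]; exact hu.pow E), ?_⟩
    rintro (_ | t)
    · exact kLift_kr _ _ _ _
    · exact (kLift_kc _ _ _ _ _).trans (hφ _)
  · intro F _ _ h h' e
    have e0 : h (kr _ _) = h' (kr _ _) := e none
    have e2 : h.comp (kc k _ _) = h'.comp (kc k _ _) := by
      refine cx_ext fun j => ?_
      rw [AlgHom.comp_apply, AlgHom.comp_apply]
      rcases j with _ | t
      · change h (kc k E (YY E M) (YY E M)) = h' (kc k E (YY E M) (YY E M))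
        rw [← kr_pow, map_pow, map_pow, e0]
      · exact e (some t)
    exact kum_ext (fun c => DFunLike.congr_fun e2 c) e0

/-- the coordinates on the closed part -/
noncomputable def x4 : Option τ → MvPolynomial τ k ⧸ sysI E fun i t => M i (some (some t)) :=
  fun j => j.elim 0 fun t => Ideal.Quotient.mk _ (X t)

lemma isQ4 (hE : 0 < E) : IsQ ((sysI E fun i j => M i (some j)) ⊔ Ideal.span {X none}) 1
    (aeval (x4 E M) : MvPolynomial (Option τ) k →ₐ[k] _) := by
  have hs : ((sysI E fun i j => M i (some j)) ⊔ Ideal.span {X none}) =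
      Ideal.span (Set.range fun o : Option κ => o.elim (X none : MvPolynomial (Option τ) k)
        fun i => Ferm E (Option τ) fun j => M i (some j)) := by
    rw [sysI, ← Ideal.span_union, Set.union_singleton]
    congr 1
    ext p
    simp only [Set.mem_insert_iff, Set.mem_range, Option.exists, Option.elim]
    rw [@eq_comm _ p]
  rw [hs]
  refine isQ_mk _ _ _ ?_ (by rw [map_one]; exact isUnit_one) ?_ ?_
  · rintro (_ | i)
    · exact aeval_X _ _
    · have h1 := cx_rel (fun i => Ferm E τ fun t => M i (some (some t))) i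
      rw [aeval_ferm] at h1
      change aeval _ (Ferm E (Option τ) fun j => M i (some j)) = 0
      rw [aeval_ferm, Fintype.sum_option]
      change _ * 0 ^ E + _ = _
      rw [zero_pow hE.ne', mul_zero, zero_add]
      exact h1
  · intro F _ _ y hy _
    have h0 : y none = 0 := by
      have h1 := hy none
      rwa [Option.elim, aeval_X] at h1
    obtain ⟨φ, hφ⟩ := cx_lift (fun i => Ferm E τ fun t => M i (some (some t)))
      (fun t => y (some t)) (fun i => by
        have h1 := hy (some i)
        rw [Option.elim, aeval_ferm, Fintype.sum_option, h0, zero_pow hE.ne', mul_zero,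
          zero_add] at h1
        rw [aeval_ferm, ← h1])
    refine ⟨φ, ?_⟩
    rintro (_ | t)
    · rw [h0]
      exact map_zero φ
    · exact hφ t
  · intro F _ _ h h' e
    exact cx_ext fun t => e (some t)

/-! ### the theorem -/

theorem t_MERGE : S_MERGE := by
  intro k _ P hP E hE κ τ _ M lam hM h1 h2
  have hL := loc_of_bnd hP.toBnd
  have a3 : P (aff k (Kum E (YY E M))) := st_to hL (isQ3 E M hE)
    (st_open hL (X none) (st_of hL (isQ4 E M hE) h2) (st_of hL (isQ_one _) h1))
  have a2 : P (aff k (BB E M ⧸ Ideal.span {YY E M})) := st_to hL (isQ2 E M)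
    (st_of hL (isQ_one _) h2)
  have a0 : P (aff k (Fib (one (hh (k := k) E lam)) k (fun _ => (1 : k)))) := by
    have h3 := p_ferm hP hE Bool (fun b => cond b 1 lam) (1 : k)
    rw [← fib_level hP] at h3
    exact h3
  have a1 := fib_step hP (ferm_hom E fun b : Bool => cond b 1 lam) hE a0 (YY E M) a2 a3
  exact st_to hL (isQ_one _) (st_of hL (isQ1 E M lam hM) a1)

end Pool.Agent.V5helper86.PT
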